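import Pool.Agent.Helper55.CF.Goals

noncomputable section
namespace CF55
namespace H16CJ

theorem fl_zero {T : Tri} {e : Fin 6 → V} {i j k : Fin 6}
    (h : ∀ a b c, a ≤ i → b ≤ j → c ≤ k → T (e a) (e b) (e c) = 0) :
    ∀ x ∈ Fl e i, ∀ y ∈ Fl e j, ∀ z ∈ Fl e k, T x y z = 0 := by
  intro x hx y hy z hz
  unfold Fl at hx hy hz
  induction hx using Submodule.span_induction with
  | mem x hx =>
    obtain ⟨a, ha, rfl⟩ := hx
    induction hy using Submodule.span_induction with
    | mem y hy =>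
      obtain ⟨b, hb, rfl⟩ := hy
      induction hz using Submodule.span_induction with
      | mem z hz =>
        obtain ⟨c, hc, rfl⟩ := hz
        exact h a b c ha hb hc
      | zero => simp
      | add u v _ _ hu hv => rw [map_add, hu, hv, add_zero]
      | smul r u _ hu => rw [map_smul, hu, smul_zero]
    | zero => simp
    | add u v _ _ hu hv => rw [map_add, LinearMap.add_apply, hu, hv, add_zero]
    | smul r u _ hu => rw [map_smul, LinearMap.smul_apply, hu, smul_zero]
  | zero => simp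
  | add u v _ _ hu hv =>
    rw [map_add, LinearMap.add_apply, LinearMap.add_apply, hu, hv, add_zero]
  | smul r u _ hu => rw [map_smul, LinearMap.smul_apply, LinearMap.smul_apply, hu, smul_zero]

theorem fl_mem {e : Fin 6 → V} {a i : Fin 6} (h : a ≤ i) : e a ∈ Fl e i :=
  Submodule.subset_span ⟨a, h, rfl⟩

/-- the modified basis -/
def mb (e : Fin 6 → V) (j : Fin 6) (r : Fin 6 → ℂ) : Fin 6 → V := fun a => e a - r a • e j

theorem mb_mem {e : Fin 6 → V} {j : Fin 6} {r : Fin 6 → ℂ} (hr : ∀ a, a ≤ j → r a = 0)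
    {a i : Fin 6} (h : a ≤ i) : mb e j r a ∈ Fl e i := by
  unfold mb
  by_cases haj : a ≤ j
  · rw [hr a haj, zero_smul, sub_zero]
    exact fl_mem h
  · refine Submodule.sub_mem _ (fl_mem h) (Submodule.smul_mem _ _ (fl_mem ?_))
    exact (le_of_lt (not_le.mp haj)).trans h

theorem mb_li {e : Fin 6 → V} (he : LinearIndependent ℂ e) {j : Fin 6} {r : Fin 6 → ℂ}
    (hr : r j = 0) : LinearIndependent ℂ (mb e j r) := by
  rw [Fintype.linearIndependent_iff] at he ⊢
  intro g hg
  have h1 : ∑ a, (g a - (if a = j then ∑ b, g b * r b else 0)) • e a = 0 := by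
    simp only [sub_smul, Finset.sum_sub_distrib, ite_smul, zero_smul, Finset.sum_ite_eq',
      Finset.mem_univ, if_true]
    rw [← hg]
    simp only [mb, smul_sub, Finset.sum_sub_distrib, smul_smul, Finset.sum_smul]
  have h2 := he _ h1
  have h3 : ∀ a, a ≠ j → g a = 0 := by
    intro a ha
    have := h2 a
    rwa [if_neg ha, sub_zero] at this
  intro a
  by_cases ha : a = j
  · have h4 := h2 a
    rw [if_pos ha, sub_eq_zero] at h4
    rw [h4]
    refine Finset.sum_eq_zero fun b _ => ?_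
    by_cases hb : b = j
    · rw [hb, hr, mul_zero]
    · rw [h3 b hb, zero_mul]
  · exact h3 a ha

theorem supp_aux {T : Tri} (sT : Sym T) (f : Fin 6 → V) (σ : Fin 6 → Fin 6) (w : Fin 6 → ℕ)
    (d : ℕ) (Zc : Fin 6 → Fin 6 → Fin 6 → Bool)
    (hZ : ∀ a b c, Zc a b c = true → T (f a) (f b) (f c) = 0)
    (hdec : ∀ a b c, w a + w b + w c < d →
      (Zc (σ a) (σ b) (σ c) || Zc (σ a) (σ c) (σ b) || Zc (σ b) (σ a) (σ c) ||
        Zc (σ b) (σ c) (σ a) || Zc (σ c) (σ a) (σ b) || Zc (σ c) (σ b) (σ a)) = true) :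
    ∀ a b c, T ((f ∘ σ) a) ((f ∘ σ) b) ((f ∘ σ) c) ≠ 0 → d ≤ w a + w b + w c := by
  intro a b c h
  by_contra hlt
  apply h
  have h1 := hdec a b c (not_le.mp hlt)
  simp only [Bool.or_eq_true] at h1
  simp only [Function.comp_apply]
  rcases h1 with ((((h1 | h1) | h1) | h1) | h1) | h1
  · exact hZ _ _ _ h1
  · rw [sT.s23]; exact hZ _ _ _ h1
  · rw [sT.s12]; exact hZ _ _ _ h1
  · rw [sT.s12, sT.s23]; exact hZ _ _ _ h1
  · rw [sT.s23, sT.s12]; exact hZ _ _ _ h1
  · rw [sT.s12, sT.s23, sT.s12]; exact hZ _ _ _ h1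

/-- the normal form of the quadratic term -/
theorem nf {T : Tri} (sT : Sym T) {e : Fin 6 → V} {j : Fin 6} (hj : j ≤ 3) {r : Fin 6 → ℂ}
    (hr : ∀ a, a ≤ j → r a = 0)
    (h1 : ∀ a b, a ≤ 3 → b ≤ 4 → T (e 0) (e a) (e b) = 0)
    (hra : ∀ a, a ≤ 4 → a ≠ j → T (e 0) (e a) (e 5) = r a * T (e 0) (e j) (e 5))
    (hr5 : T (e 0) (e 5) (e 5) = 2 * r 5 * T (e 0) (e j) (e 5)) :
    (∀ a b, ¬ (a = 4 ∧ b = 4) → ¬ (a = j ∧ b = 5) → ¬ (a = 5 ∧ b = j) →
      T (mb e j r 0) (mb e j r a) (mb e j r b) = 0) ∧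
    T (mb e j r 0) (mb e j r j) (mb e j r 5) = T (e 0) (e j) (e 5) := by
  have hr0 : r 0 = 0 := hr 0 (Fin.zero_le _)
  have hm0 : mb e j r 0 = e 0 := by simp [mb, hr0]
  have hmj : mb e j r j = e j := by simp [mb, hr j le_rfl]
  -- symmetric version of h1
  have h1' : ∀ a b, a ≤ 4 → b ≤ 3 → T (e 0) (e a) (e b) = 0 := by
    intro a b ha hb
    rw [sT.s23]; exact h1 b a hb ha
  have hjj : T (e 0) (e j) (e j) = 0 := h1 j j hj (hj.trans (by decide))
  have ex : ∀ a b, T (mb e j r 0) (mb e j r a) (mb e j r b) =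
      T (e 0) (e a) (e b) - r b * T (e 0) (e a) (e j) - r a * T (e 0) (e j) (e b)
        + r a * r b * T (e 0) (e j) (e j) := by
    intro a b
    rw [hm0]
    simp only [mb, map_sub, map_smul, LinearMap.sub_apply, LinearMap.smul_apply, smul_eq_mul]
    ring
  have key5 : ∀ a, a ≤ 4 → a ≠ j → T (mb e j r 0) (mb e j r a) (mb e j r 5) = 0 := by
    intro a ha haj
    rw [ex, hjj, hra a ha haj, h1' a j ha hj]
    ring
  refine ⟨?_, ?_⟩
  · intro a b h44 hj5 h5j
    by_cases ha : a ≤ 4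
    · by_cases hb : b ≤ 4
      · rw [ex, hjj, h1' a j ha hj, h1 j b hj hb]
        have : T (e 0) (e a) (e b) = 0 := by
          by_cases ha3 : a ≤ 3
          · exact h1 a b ha3 hb
          · refine h1' a b ha ?_
            by_contra hb3
            apply h44
            constructor <;> omega
        rw [this]
        ring
      · have hb5 : b = 5 := by omega
        subst hb5
        refine key5 a ha fun h => hj5 ⟨h, rfl⟩
    · have ha5 : a = 5 := by omega
      subst ha5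
      by_cases hb : b ≤ 4
      · rw [sT.s23]
        refine key5 b hb fun h => h5j ⟨rfl, h⟩
      · have hb5 : b = 5 := by omega
        subst hb5
        rw [ex, hjj, hr5, sT.s23 (e 0) (e 5) (e j)]
        ring
  · rw [ex, hjj, hr j le_rfl]
    ring

theorem fin_le {a : Fin 6} {w : Fin 6 → ℝ} (hw : Monotone w) : w a ≤ w 5 := hw (by omega)

/-- basic facts -/
theorem basic {T : Tri} {e : Fin 6 → V} {w : Fin 6 → ℝ} (hw : Monotone w) (w0 : w 0 = 0)
    (hT : ∀ a b c, T (e a) (e b) (e c) ≠ 0 → (∑ i, w i) / 2 < w a + w b + w c)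
    (h34 : w 3 + w 4 ≤ (∑ i, w i) / 2) (h234 : (∑ i, w i) / 2 < w 2 + w 3 + w 4) :
    (∀ i j k, w i + w j + w k ≤ (∑ i, w i) / 2 → ∀ a b c, a ≤ i → b ≤ j → c ≤ k →
      T (e a) (e b) (e c) = 0) ∧
    (∀ a, T (e 0) (e 0) (e a) = 0) ∧
    (∀ a b, a ≤ 3 → b ≤ 4 → T (e 0) (e a) (e b) = 0) := by
  have hs : ∑ i, w i = w 0 + w 1 + w 2 + w 3 + w 4 + w 5 := by
    simp [Fin.sum_univ_succ]
    ring
  have w1 : 0 ≤ w 1 := by rw [← w0]; exact hw (by decide)
  have h5 : w 5 ≤ (∑ i, w i) / 2 := by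
    rw [hs] at h234 ⊢
    linarith
  refine ⟨?_, ?_, ?_⟩
  · intro i j k h a b c ha hb hc
    by_contra hne
    have := hT a b c hne
    have := hw ha
    have := hw hb
    have := hw hc
    linarith
  · intro a
    by_contra hne
    have := hT 0 0 a hne
    have : w a ≤ w 5 := fin_le hw
    linarith
  · intro a b ha hb
    by_contra hne
    have := hT 0 a b hne
    have := hw ha
    have := hw hb
    linarith

theorem mkA1 {T : Tri} (sT : Sym T) {f : Fin 6 → V} (lf : LinearIndependent ℂ f) (j : Fin 6)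
    (hj3 : j ≠ 0 ∧ j ≤ 3)
    (nf1 : ∀ a b, ¬ (a = 4 ∧ b = 4) → ¬ (a = j ∧ b = 5) → ¬ (a = 5 ∧ b = j) →
      T (f 0) (f a) (f b) = 0)
    (nf2 : T (f 0) (f j) (f 5) ≠ 0) (σ : Fin 6 → Fin 6) (w : Fin 6 → ℕ) (d : ℕ)
    (hσ : Function.Injective σ) (hσ0 : σ 0 = 0) (hσ1 : σ 1 = j) (hσ2 : σ 2 = 5)
    (hw : w 0 = 0 ∧ (∀ i, i ≠ 0 → 0 < w i) ∧ w 1 + w 2 = d ∧ w 1 ≤ w 2 ∧ ∑ i, w i < 2 * d)
    (Zc : Fin 6 → Fin 6 → Fin 6 → Bool)
    (hZ : ∀ a b c, Zc a b c = true → T (f a) (f b) (f c) = 0)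
    (hdec : ∀ a b c, w a + w b + w c < d →
      (Zc (σ a) (σ b) (σ c) || Zc (σ a) (σ c) (σ b) || Zc (σ b) (σ a) (σ c) ||
        Zc (σ b) (σ c) (σ a) || Zc (σ c) (σ a) (σ b) || Zc (σ c) (σ b) (σ a)) = true) :
    A1data T (f ∘ σ) w d := by
  obtain ⟨hj0, hj⟩ := hj3
  have hj5 : j ≠ 5 := by omega
  have hj4 : j ≠ 4 := by omega
  refine ⟨lf.comp σ hσ, hw.1, hw.2.1, hw.2.2.1, hw.2.2.2.1, hw.2.2.2.2, ?_, ?_, ?_, ?_, ?_⟩
  · intro a
    simp only [Function.comp_apply, hσ0]
    refine nf1 0 _ ?_ ?_ ?_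
    · rintro ⟨h, -⟩; exact absurd h (by decide)
    · rintro ⟨h, -⟩; exact hj0 h.symm
    · rintro ⟨h, -⟩; exact absurd h (by decide)
  · simp only [Function.comp_apply, hσ0, hσ1]
    refine nf1 _ _ ?_ ?_ ?_
    · rintro ⟨h, -⟩; exact hj4 h
    · rintro ⟨-, h⟩; exact hj5 h
    · rintro ⟨h, -⟩; exact hj5 h
  · simp only [Function.comp_apply, hσ0, hσ2]
    refine nf1 _ _ ?_ ?_ ?_
    · rintro ⟨h, -⟩; exact absurd h (by decide)
    · rintro ⟨h, -⟩; exact hj5 h.symm
    · rintro ⟨-, h⟩; exact hj5 h.symm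
  · simp only [Function.comp_apply, hσ0, hσ1, hσ2]
    exact nf2
  · exact supp_aux sT f σ w d Zc hZ hdec

/-- the vanishing table -/
def Zt (F : Fin 6 → Fin 6 → Fin 6 → Bool) (j : Fin 6) : Fin 6 → Fin 6 → Fin 6 → Bool :=
  fun a b c => F a b c ||
    (decide (a = 0) && !(decide (b = 4) && decide (c = 4)) && !(decide (b = j) && decide (c = 5))
      && !(decide (b = 5) && decide (c = j)))

theorem hZt {T : Tri} {f : Fin 6 → V} {j : Fin 6}
    (nf1 : ∀ a b, ¬ (a = 4 ∧ b = 4) → ¬ (a = j ∧ b = 5) → ¬ (a = 5 ∧ b = j) →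
      T (f 0) (f a) (f b) = 0) {F : Fin 6 → Fin 6 → Fin 6 → Bool}
    (hF : ∀ a b c, F a b c = true → T (f a) (f b) (f c) = 0) :
    ∀ a b c, Zt F j a b c = true → T (f a) (f b) (f c) = 0 := by
  intro a b c h
  unfold Zt at h
  rw [Bool.or_eq_true] at h
  rcases h with h | h
  · exact hF a b c h
  · simp only [Bool.and_eq_true, decide_eq_true_eq, Bool.not_eq_true', Bool.and_eq_false_iff,
      decide_eq_false_iff_not] at h
    obtain ⟨⟨⟨rfl, h1⟩, h2⟩, h3⟩ := h
    exact nf1 b c (by tauto) (by tauto) (by tauto)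

theorem stmtCJ3 : G_CJ3 := by
  intro T e w sT he hw w0 hT h34 h234 hβ h15 h25 h35
  obtain ⟨hfl, h00, h03⟩ := basic hw w0 hT h34 h234
  have hs : ∑ i, w i = w 0 + w 1 + w 2 + w 3 + w 4 + w 5 := by
    simp [Fin.sum_univ_succ]
    ring
  have hw35 := hT 0 3 5 h35
  have hw44 := hT 0 4 4 hβ
  have w12 : w 1 ≤ w 2 := hw (by decide)
  let r : Fin 6 → ℂ := fun a => if a = 4 then T (e 0) (e 4) (e 5) / T (e 0) (e 3) (e 5)
    else if a = 5 then T (e 0) (e 5) (e 5) / (2 * T (e 0) (e 3) (e 5)) else 0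
  have hr : ∀ a, a ≤ 3 → r a = 0 := by
    intro a ha
    have h4 : a ≠ 4 := by omega
    have h5 : a ≠ 5 := by omega
    simp [r, h4, h5]
  obtain ⟨nf1, nf2⟩ := nf sT (j := 3) le_rfl hr h03 (by
    intro a ha ha3
    have : a = 0 ∨ a = 1 ∨ a = 2 ∨ a = 4 := by omega
    rcases this with rfl | rfl | rfl | rfl
    · rw [h00, hr 0 (by decide), zero_mul]
    · rw [h15, hr 1 (by decide), zero_mul]
    · rw [h25, hr 2 (by decide), zero_mul]
    · simp only [r, if_true]
      field_simp) (by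
    simp only [r, if_true]
    rw [if_neg (by decide)]
    field_simp)
  rw [← nf2] at h35
  have lf := mb_li he (hr 3 le_rfl)
  have hfl' : ∀ i j k, w i + w j + w k ≤ (∑ i, w i) / 2 → ∀ a b c, a ≤ i → b ≤ j → c ≤ k →
      T (mb e 3 r a) (mb e 3 r b) (mb e 3 r c) = 0 := fun i j k h a b c ha hb hc =>
    fl_zero (hfl i j k h) _ (mb_mem hr ha) _ (mb_mem hr hb) _ (mb_mem hr hc)
  have f124 := hfl' 1 2 4 (by linarith)
  by_cases hc : 2 * w 1 + w 5 ≤ (∑ i, w i) / 2
  · have f115 := hfl' 1 1 5 (by linarith)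
    refine ⟨_, _, _, mkA1 sT lf 3 (by decide) nf1 h35 ![0, 3, 5, 1, 2, 4] ![0, 18, 22, 4, 14, 20] 40
      (by decide) rfl rfl rfl (by decide)
      (Zt (fun a b c => (decide (a ≤ 1) && decide (b ≤ 2) && decide (c ≤ 4)) ||
        (decide (a ≤ 1) && decide (b ≤ 1) && decide (c ≤ 5))) 3) (hZt nf1 ?_) (by decide)⟩
    intro a b c h
    simp only [Bool.or_eq_true, Bool.and_eq_true, decide_eq_true_eq] at h
    rcases h with ⟨⟨h1, h2⟩, h3⟩ | ⟨⟨h1, h2⟩, h3⟩
    · exact f124 a b c h1 h2 h3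
    · exact f115 a b c h1 h2 h3
  · have f223 := hfl' 2 2 3 (by linarith)
    refine ⟨_, _, _, mkA1 sT lf 3 (by decide) nf1 h35 ![0, 3, 5, 1, 2, 4] ![0, 16, 24, 8, 10, 20] 40
      (by decide) rfl rfl rfl (by decide)
      (Zt (fun a b c => (decide (a ≤ 1) && decide (b ≤ 2) && decide (c ≤ 4)) ||
        (decide (a ≤ 2) && decide (b ≤ 2) && decide (c ≤ 3))) 3) (hZt nf1 ?_) (by decide)⟩
    intro a b c h
    simp only [Bool.or_eq_true, Bool.and_eq_true, decide_eq_true_eq] at h
    rcases h with ⟨⟨h1, h2⟩, h3⟩ | ⟨⟨h1, h2⟩, h3⟩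
    · exact f124 a b c h1 h2 h3
    · exact f223 a b c h1 h2 h3

theorem finrank_fl {e : Fin 6 → V} (he : LinearIndependent ℂ e) (k : Fin 6) :
    Module.finrank ℂ (Fl e k) = Fintype.card {i : Fin 6 // i ≤ k} := by
  unfold Fl
  rw [Set.image_eq_range]
  exact finrank_span_eq_card (b := fun x : {i : Fin 6 // i ≤ k} => e x)
    (he.comp _ Subtype.val_injective)

theorem finrank_ker (L : V →ₗ[ℂ] ℂ) : 5 ≤ Module.finrank ℂ (LinearMap.ker L) := by
  have h1 := L.finrank_range_add_finrank_ker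
  have h2 : Module.finrank ℂ (LinearMap.range L) ≤ 1 := by
    have := Submodule.finrank_le (LinearMap.range L)
    simpa using this
  have h3 : Module.finrank ℂ V = 6 := by simp
  omega

theorem finrank_inf_ker (S : Submodule ℂ V) (L : V →ₗ[ℂ] ℂ) :
    Module.finrank ℂ S ≤ Module.finrank ℂ (S ⊓ LinearMap.ker L : Submodule ℂ V) + 1 := by
  have h1 := Submodule.finrank_sup_add_finrank_inf_eq S (LinearMap.ker L)
  have h2 := finrank_ker L
  have h3 : Module.finrank ℂ (S ⊔ LinearMap.ker L : Submodule ℂ V) ≤ 6 := by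
    have := Submodule.finrank_le (S ⊔ LinearMap.ker L : Submodule ℂ V)
    simpa using this
  omega

theorem stmtCJ2 : G_CJ2 := by
  intro T e w sT he hw w0 hT h34 h234 hβ h15 h25
  obtain ⟨hfl, h00, h03⟩ := basic hw w0 hT h34 h234
  have hs : ∑ i, w i = w 0 + w 1 + w 2 + w 3 + w 4 + w 5 := by
    simp [Fin.sum_univ_succ]
    ring
  have hw25 := hT 0 2 5 h25
  have hw44 := hT 0 4 4 hβ
  have w12 : w 1 ≤ w 2 := hw (by decide)
  have w23 : w 2 ≤ w 3 := hw (by decide)
  have h134 : w 1 + w 3 + w 4 ≤ (∑ i, w i) / 2 := by linarith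
  by_cases hc : w 2 + 2 * w 3 ≤ (∑ i, w i) / 2
  · left
    let r : Fin 6 → ℂ := fun a => if a = 3 then T (e 0) (e 3) (e 5) / T (e 0) (e 2) (e 5)
      else if a = 4 then T (e 0) (e 4) (e 5) / T (e 0) (e 2) (e 5)
      else if a = 5 then T (e 0) (e 5) (e 5) / (2 * T (e 0) (e 2) (e 5)) else 0
    have hr : ∀ a, a ≤ 2 → r a = 0 := by
      intro a ha
      have h3 : a ≠ 3 := by omega
      have h4 : a ≠ 4 := by omega
      have h5 : a ≠ 5 := by omega
      simp [r, h3, h4, h5]
    obtain ⟨nf1, nf2⟩ := nf sT (j := 2) (by decide) hr h03 (by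
      intro a ha ha3
      have : a = 0 ∨ a = 1 ∨ a = 3 ∨ a = 4 := by omega
      rcases this with rfl | rfl | rfl | rfl
      · rw [h00, hr 0 (by decide), zero_mul]
      · rw [h15, hr 1 (by decide), zero_mul]
      · simp only [r, if_true]
        field_simp
      · simp only [r, if_true]
        rw [if_neg (by decide)]
        field_simp) (by
      simp only [r, if_true]
      rw [if_neg (by decide), if_neg (by decide)]
      field_simp)
    rw [← nf2] at h25
    have lf := mb_li he (hr 2 le_rfl)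
    have hfl' : ∀ i j k, w i + w j + w k ≤ (∑ i, w i) / 2 → ∀ a b c, a ≤ i → b ≤ j → c ≤ k →
        T (mb e 2 r a) (mb e 2 r b) (mb e 2 r c) = 0 := fun i j k h a b c ha hb hc =>
      fl_zero (hfl i j k h) _ (mb_mem hr ha) _ (mb_mem hr hb) _ (mb_mem hr hc)
    have f134 := hfl' 1 3 4 h134
    have f233 := hfl' 2 3 3 (by linarith)
    refine ⟨_, _, _, mkA1 sT lf 2 (by decide) nf1 h25 ![0, 2, 5, 1, 3, 4] ![0, 16, 48, 8, 22, 32] 64
      (by decide) rfl rfl rfl (by decide)
      (Zt (fun a b c => (decide (a ≤ 1) && decide (b ≤ 3) && decide (c ≤ 4)) ||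
        (decide (a ≤ 2) && decide (b ≤ 3) && decide (c ≤ 3))) 2) (hZt nf1 ?_) (by decide)⟩
    intro a b c h
    simp only [Bool.or_eq_true, Bool.and_eq_true, decide_eq_true_eq] at h
    rcases h with ⟨⟨h1, h2⟩, h3⟩ | ⟨⟨h1, h2⟩, h3⟩
    · exact f134 a b c h1 h2 h3
    · exact f233 a b c h1 h2 h3
  · right
    have f115 := fl_zero (hfl 1 1 5 (by linarith))
    have f134 := fl_zero (hfl 1 3 4 h134)
    have hF5 : ∀ v : V, v ∈ Fl e 5 := by
      intro v
      have : Fl e 5 = ⊤ := by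
        unfold Fl
        have h1 : {i : Fin 6 | i ≤ 5} = Set.univ := by
          ext i
          refine ⟨fun _ => trivial, fun _ => ?_⟩
          change i ≤ 5
          omega
        rw [h1, Set.image_univ]
        exact he.span_eq_top_of_card_eq_finrank (by simp)
      rw [this]
      trivial
    let b : Module.Basis (Fin 6) ℂ V := basisOfLinearIndependentOfCardEqFinrank he (by simp)
    have hb : ∀ i, b i = e i := fun i => by simp [b]
    have hb5 : b.coord 5 (e 5) = 1 := by rw [← hb]; simp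
    have hbi : ∀ i, i ≠ 5 → b.coord 5 (e i) = 0 := by
      intro i hi
      rw [← hb]
      simp [hi]
    set P : V := e 1 - (T (e 1) (e 4) (e 4) / T (e 0) (e 4) (e 4)) • e 0 with hP
    have hP1 : P ∈ Fl e 1 := Submodule.sub_mem _ (fl_mem le_rfl)
      (Submodule.smul_mem _ _ (fl_mem (by decide)))
    have hPne : P ≠ 0 := by
      intro h0
      have h1 : b.coord 1 P = 1 := by
        rw [hP, map_sub, map_smul, ← hb 1, ← hb 0, b.coord_apply, b.coord_apply, b.repr_self,
          b.repr_self]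
        simp
      rw [h0, map_zero] at h1
      exact zero_ne_one h1
    have hPP : ∀ v, T P P v = 0 := fun v => f115 P hP1 P hP1 v (hF5 v)
    have hP44 : T P (e 4) (e 4) = 0 := by
      rw [hP]
      simp only [map_sub, map_smul, LinearMap.sub_apply, LinearMap.smul_apply, smul_eq_mul]
      field_simp
      ring
    -- T P vanishes on Fl 4 × Fl 4
    have hP4 : ∀ x ∈ Fl e 4, ∀ y ∈ Fl e 4, T P x y = 0 := by
      have h1 : ∀ a c, a ≤ 4 → c ≤ 4 → T P (e a) (e c) = 0 := by
        intro a c ha hc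
        by_cases ha3 : a ≤ 3
        · exact f134 P hP1 _ (fl_mem ha3) _ (fl_mem hc)
        · by_cases hc3 : c ≤ 3
          · rw [sT.s23]
            exact f134 P hP1 _ (fl_mem hc3) _ (fl_mem ha)
          · have h4 : a = 4 := by omega
            have h4' : c = 4 := by omega
            rw [h4, h4']
            exact hP44
      intro x hx y hy
      unfold Fl at hx hy
      induction hx using Submodule.span_induction with
      | mem x hx =>
        obtain ⟨a, ha, rfl⟩ := hx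
        induction hy using Submodule.span_induction with
        | mem y hy =>
          obtain ⟨c, hc, rfl⟩ := hy
          exact h1 a c ha hc
        | zero => simp
        | add u v _ _ hu hv => rw [map_add, hu, hv, add_zero]
        | smul r u _ hu => rw [map_smul, hu, smul_zero]
      | zero => simp
      | add u v _ _ hu hv => rw [map_add, LinearMap.add_apply, hu, hv, add_zero]
      | smul r u _ hu => rw [map_smul, LinearMap.smul_apply, hu, smul_zero]
    set x5 : V →ₗ[ℂ] ℂ := b.coord 5 with hx5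
    -- kernel of x5
    have hker : ∀ v, x5 v = 0 → v ∈ Fl e 4 := by
      intro v hv
      rw [← b.sum_repr v]
      refine Submodule.sum_mem _ fun i _ => ?_
      by_cases hi : i = 5
      · have : b.repr v i = 0 := by rw [hi]; exact hv
        rw [this, zero_smul]
        exact Submodule.zero_mem _
      · rw [hb]
        exact Submodule.smul_mem _ _ (fl_mem (by omega))
    have hFlker : ∀ k : Fin 6, k ≤ 4 → Fl e k ≤ LinearMap.ker x5 := by
      intro k hk
      unfold Fl
      rw [Submodule.span_le]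
      rintro _ ⟨i, hi, rfl⟩
      have hi' : i ≤ k := hi
      exact hbi i (by omega)
    let L : V →ₗ[ℂ] ℂ := (2 : ℂ) • (T P).flip (e 5) - (T P (e 5) (e 5)) • x5
    have hL : ∀ v, L v = 2 * T P v (e 5) - T P (e 5) (e 5) * x5 v := fun v => rfl
    have hfac : ∀ v, T P v v = x5 v * L v := by
      intro v
      have h1 : v - x5 v • e 5 ∈ Fl e 4 := hker _ (by rw [map_sub, map_smul, hb5]; simp)
      have h2 := hP4 _ h1 _ h1
      have h3 := sT.s23 P (e 5) v
      rw [hL]
      simp only [map_sub, map_smul, LinearMap.sub_apply, LinearMap.smul_apply, smul_eq_mul, h3]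
        at h2
      linear_combination h2
    by_cases hli : LinearIndependent ℂ ![x5, L]
    · left
      refine ⟨P, hPne, hPP, x5, L, hli, hfac, Fl e 1, Fl e 3 ⊓ LinearMap.ker L, hP1, ?_, ?_, ?_,
        ?_, ?_⟩
      · refine le_inf ?_ ?_
        · unfold Fl
          refine Submodule.span_mono (Set.image_mono ?_)
          intro i hi
          have hi' : i ≤ 1 := hi
          change i ≤ 3
          omega
        · intro v hv
          rw [LinearMap.mem_ker, hL, f115 P hP1 v hv _ (hF5 _)]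
          have : x5 v = 0 := hFlker 1 (by decide) hv
          rw [this]
          ring
      · exact inf_le_inf (hFlker 3 (by decide)) le_rfl
      · rw [finrank_fl he]
        decide
      · have h1 := finrank_inf_ker (Fl e 3) L
        have h2 : Module.finrank ℂ (Fl e 3) = 4 := by
          rw [finrank_fl he]
          decide
        omega
      · intro a ha c hc v hv
        exact f134 a ha c hc.1 v (hker v hv.1)
    · right
      refine ⟨P, hPne, hPP, ?_⟩
      have hx5ne : x5 ≠ 0 := by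
        intro h0
        rw [h0] at hb5
        simp at hb5
      rw [LinearIndependent.pair_iff' hx5ne] at hli
      push Not at hli
      obtain ⟨c, hc⟩ := hli
      obtain ⟨s, hs⟩ := IsAlgClosed.exists_pow_nat_eq c (n := 2) (by norm_num)
      refine ⟨s • x5, fun v => ?_⟩
      rw [hfac, ← hc]
      simp only [LinearMap.smul_apply, smul_eq_mul]
      rw [mul_pow, hs]
      ring

end H16CJ

theorem stmtCJ3 : G_CJ3 := H16CJ.stmtCJ3
theorem stmtCJ2 : G_CJ2 := H16CJ.stmtCJ2

end CF55
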