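import Pool.Agent.Helper45.CF.GoalsB

/-!
# Packet CF-DEC (project CF, MP_d97caa_an)

The decomposition of a rotated connecting map at a corner.
-/

open scoped ComplexOrder ZeroAtInfty Topology ComplexConjugate
open TopologicalSpace

namespace Pool.Agent.Helper16.CF

open Pool.Agent.Helper34.CAR Pool.Agent.Helper39.CR Pool.Agent.Helper45.CF

noncomputable section

/-! ## The Bott projection is a projection -/

theorem sph (y : Sphere2) : ((y.1.1 : ℝ) : ℂ) ^ 2 + y.1.2 * conj y.1.2 = 1 := by
  have h := y.2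
  rw [Complex.mul_conj, Complex.normSq_eq_norm_sq]
  exact_mod_cast h

theorem bp_mul (y : Sphere2) (i l : Fin 2) :
    bp y i 0 * bp y 0 l + bp y i 1 * bp y 1 l = bp y i l := by
  have h := sph y
  fin_cases i <;> fin_cases l <;> simp [bp] <;>
    first | ring1 | linear_combination (1 / 4 : ℂ) * h

theorem bp_star (y : Sphere2) (i j : Fin 2) : star (bp y i j) = bp y j i := by
  fin_cases i <;> fin_cases j <;> simp [bp]

/-! ## Products with matrix units -/

section

variable {I B : Type} [Fintype I] [DecidableEq I] [CStarAlgebra B]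

theorem sm (i j : I) (x : B) (M : Mt I B) (i' j' : I) :
    (Mt.single i j x * M) i' j' = if i' = i then x * M j j' else 0 := by
  rw [Mt.mul_apply, Finset.sum_eq_single j]
  · rw [Mt.single_apply]
    by_cases h : i' = i <;> simp [h]
  · intro c _ hc
    simp [Mt.single_apply, hc]
  · simp

theorem ms (i j : I) (x : B) (M : Mt I B) (i' j' : I) :
    (M * Mt.single i j x) i' j' = if j' = j then M i' i * x else 0 := by
  rw [Mt.mul_apply, Finset.sum_eq_single i]
  · rw [Mt.single_apply]
    by_cases h : j' = j <;> simp [h]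
  · intro c _ hc
    simp [Mt.single_apply, hc]
  · simp

theorem single_smul (i j : I) (c : ℂ) (x : B) :
    (Mt.single i j (c • x) : Mt I B) = c • Mt.single i j x := by
  ext a b
  rw [Mt.smul_apply, Mt.single_apply, Mt.single_apply]
  split_ifs <;> simp

theorem single_add (i j : I) (x x' : B) :
    (Mt.single i j (x + x') : Mt I B) = Mt.single i j x + Mt.single i j x' := by
  ext a b
  rw [Mt.add_apply, Mt.single_apply, Mt.single_apply, Mt.single_apply]
  split_ifs <;> simp

theorem single_zero (i j : I) : (Mt.single i j (0 : B) : Mt I B) = 0 := by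
  ext a b
  rw [Mt.single_apply]
  split_ifs <;> rfl

/-- The block `bp y ⊗ b` at the indices `p1`, `p2`. -/
def blk (p1 p2 : I) (y : Sphere2) (b : B) : Mt I B :=
  Mt.single p1 p1 (bp y 0 0 • b) + Mt.single p1 p2 (bp y 0 1 • b) +
    Mt.single p2 p1 (bp y 1 0 • b) + Mt.single p2 p2 (bp y 1 1 • b)

theorem continuous_blk (p1 p2 : I) (b : B) : Continuous fun y => blk p1 p2 y b := by
  have h00 := continuous_bp 0 0
  have h01 := continuous_bp 0 1
  have h10 := continuous_bp 1 0
  have h11 := continuous_bp 1 1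
  simp only [blk, single_smul]
  fun_prop

theorem blk_star (p1 p2 : I) (y : Sphere2) (b : B) :
    star (blk p1 p2 y b) = blk p1 p2 y (star b) := by
  simp only [blk, star_add, Mt.star_single, star_smul, bp_star]
  abel

theorem blk_mul (p1 p2 : I) (h12 : p1 ≠ p2) (y : Sphere2) (a b : B) :
    blk p1 p2 y a * blk p1 p2 y b = blk p1 p2 y (a * b) := by
  have h21 := Ne.symm h12
  simp only [blk, single_smul, mul_add, add_mul, smul_mul_smul_comm, Mt.single_mul_single,
    Mt.single_mul_single_ne h12, Mt.single_mul_single_ne h21, smul_zero, add_zero, zero_add, add_zero]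
  linear_combination (norm := module) (bp_mul y 0 0) • (Mt.single p1 p1 (a * b) : Mt I B) +
    (bp_mul y 0 1) • (Mt.single p1 p2 (a * b) : Mt I B) +
    (bp_mul y 1 0) • (Mt.single p2 p1 (a * b) : Mt I B) +
    (bp_mul y 1 1) • (Mt.single p2 p2 (a * b) : Mt I B)

/-! ## The decomposition for abstract indices -/

/-- The entries of the rotated connecting map at a corner. -/
structure Ent (θ : B →⋆ₐ[ℂ] B) (ω : B →⋆ₐ[ℂ] ℂ) (p0 p1 p2 : I) (M : Sphere2 → B → Mt I B) :
    Prop where
  ne01 : p0 ≠ p1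
  ne02 : p0 ≠ p2
  ne12 : p1 ≠ p2
  e00 : ∀ y b, M y b p0 p0 = θ b
  e0 : ∀ y b q, q ≠ p0 → M y b p0 q = 0 ∧ M y b q p0 = 0
  e1 : ∀ y b q, q ≠ p1 → q ≠ p2 → M y b p1 q = 0 ∧ M y b q p1 = 0
  e2 : ∀ y b q, q ≠ p1 → q ≠ p2 → M y b p2 q = 0 ∧ M y b q p2 = 0
  e11 : ∀ y b, M y b p1 p1 = bp y 0 0 • b + (1 - bp y 0 0) • algebraMap ℂ B (ω b)
  e12 : ∀ y b, M y b p1 p2 = bp y 0 1 • b + (0 - bp y 0 1) • algebraMap ℂ B (ω b)
  e21 : ∀ y b, M y b p2 p1 = bp y 1 0 • b + (0 - bp y 1 0) • algebraMap ℂ B (ω b)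
  e22 : ∀ y b, M y b p2 p2 = bp y 1 1 • b + (1 - bp y 1 1) • algebraMap ℂ B (ω b)
  es : ∀ y b q q', q ≠ p0 → q ≠ p1 → q ≠ p2 → q' ≠ p0 → q' ≠ p1 → q' ≠ p2 →
    ∃ c : ℂ, M y b q q' = algebraMap ℂ B c

variable {θ : B →⋆ₐ[ℂ] B} {ω : B →⋆ₐ[ℂ] ℂ} {p0 p1 p2 : I} {M : Sphere2 → B → Mt I B}

theorem Ent.m0 (h : Ent θ ω p0 p1 p2 M) (y : Sphere2) (a b : B) :
    Mt.single p0 p0 (θ a) * M y b = Mt.single p0 p0 (θ (a * b)) := by
  ext i j
  rw [sm, Mt.single_apply]
  by_cases h1 : i = p0
  · by_cases h2 : j = p0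
    · simp [h1, h2, h.e00, map_mul]
    · simp [h1, h2, (h.e0 y b j h2).1]
  · simp [h1]

theorem Ent.m0' (h : Ent θ ω p0 p1 p2 M) (y : Sphere2) (a b : B) :
    M y a * Mt.single p0 p0 (θ b) = Mt.single p0 p0 (θ (a * b)) := by
  ext i j
  rw [ms, Mt.single_apply]
  by_cases h1 : j = p0
  · by_cases h2 : i = p0
    · simp [h1, h2, h.e00, map_mul]
    · simp [h1, h2, (h.e0 y a i h2).2]
  · simp [h1]

theorem blk_apply (h12 : p1 ≠ p2) (y : Sphere2) (b : B) (i j : I) :
    blk p1 p2 y b i j = if i = p1 then (if j = p1 then bp y 0 0 • b else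
      if j = p2 then bp y 0 1 • b else 0) else if i = p2 then (if j = p1 then bp y 1 0 • b else
      if j = p2 then bp y 1 1 • b else 0) else 0 := by
  have h21 := Ne.symm h12
  simp only [blk, Mt.add_apply, Mt.single_apply]
  by_cases i1 : i = p1
  · subst i1
    by_cases j1 : j = i
    · subst j1
      simp [h12]
    · by_cases j2 : j = p2
      · subst j2
        simp [h12, h21]
      · simp [j1, j2]
  · by_cases i2 : i = p2
    · subst i2
      by_cases j1 : j = p1
      · subst j1
        simp [h12, h21]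
      · by_cases j2 : j = i
        · subst j2
          simp [h21]
        · simp [j1, j2]
    · simp [i1, i2]

theorem bil {u v w z d d' t : ℂ} (a b o : B) (h1 : u * v + w * z = t)
    (h2 : u * d + w * d' = 0) :
    (u • a) * (v • b + d • o) + (w • a) * (z • b + d' • o) = t • (a * b) := by
  simp only [smul_mul_assoc, mul_add, mul_smul_comm, smul_smul]
  linear_combination (norm := module) h1 • (a * b) + h2 • (a * o)

theorem bil' {u v w z d d' t : ℂ} (a b o : B) (h1 : u * v + w * z = t)
    (h2 : u * d + w * d' = 0) :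
    (v • a + d • o) * (u • b) + (z • a + d' • o) * (w • b) = t • (a * b) := by
  simp only [smul_mul_assoc, add_mul, mul_smul_comm, smul_smul, smul_add]
  linear_combination (norm := module) h1 • (a * b) + h2 • (o * b)

theorem Ent.m1 (h : Ent θ ω p0 p1 p2 M) (y : Sphere2) (a b : B) :
    blk p1 p2 y a * M y b = blk p1 p2 y (a * b) := by
  have h12 := h.ne12
  have h21 := Ne.symm h.ne12
  have b00 := bp_mul y 0 0
  have b01 := bp_mul y 0 1
  have b10 := bp_mul y 1 0
  have b11 := bp_mul y 1 1
  ext i j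
  rw [blk_apply h12]
  simp only [blk, add_mul, Mt.add_apply, sm]
  by_cases i1 : i = p1
  · subst i1
    by_cases j1 : j = i
    · subst j1
      simp only [if_true, if_neg h12, h.e11, h.e21, add_zero]
      exact bil _ _ _ b00 (by linear_combination (-1 : ℂ) * b00)
    · by_cases j2 : j = p2
      · subst j2
        simp only [if_true, if_neg h12, if_neg h21, h.e12, h.e22, add_zero]
        exact bil _ _ _ b01 (by linear_combination (-1 : ℂ) * b01)
      · simp [j1, j2, h12, h.e1 y b j j1 j2, h.e2 y b j j1 j2]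
  · by_cases i2 : i = p2
    · subst i2
      by_cases j1 : j = p1
      · subst j1
        simp only [if_true, if_neg h21, h.e11, h.e21, zero_add, add_zero]
        exact bil _ _ _ b10 (by linear_combination (-1 : ℂ) * b10)
      · by_cases j2 : j = i
        · subst j2
          simp only [if_true, if_neg h21, h.e12, h.e22, zero_add, add_zero]
          exact bil _ _ _ b11 (by linear_combination (-1 : ℂ) * b11)
        · simp [j1, j2, h21, h.e1 y b j j1 j2, h.e2 y b j j1 j2]
    · simp [i1, i2]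

theorem Ent.m1' (h : Ent θ ω p0 p1 p2 M) (y : Sphere2) (a b : B) :
    M y a * blk p1 p2 y b = blk p1 p2 y (a * b) := by
  have h12 := h.ne12
  have h21 := Ne.symm h.ne12
  have b00 := bp_mul y 0 0
  have b01 := bp_mul y 0 1
  have b10 := bp_mul y 1 0
  have b11 := bp_mul y 1 1
  ext i j
  rw [blk_apply h12]
  simp only [blk, mul_add, Mt.add_apply, ms]
  by_cases j1 : j = p1
  · subst j1
    by_cases i1 : i = j
    · subst i1
      simp only [if_true, if_neg h12, h.e11, h.e12, add_zero]
      exact bil' _ _ _ (by linear_combination b00) (by linear_combination (-1 : ℂ) * b00)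
    · by_cases i2 : i = p2
      · subst i2
        simp only [if_true, if_neg h12, if_neg h21, h.e21, h.e22, add_zero]
        exact bil' _ _ _ (by linear_combination b10) (by linear_combination (-1 : ℂ) * b10)
      · simp [i1, i2, h12, h.e1 y a i i1 i2, h.e2 y a i i1 i2]
  · by_cases j2 : j = p2
    · subst j2
      by_cases i1 : i = p1
      · subst i1
        simp only [if_true, if_neg h21, h.e11, h.e12, zero_add, add_zero]
        exact bil' _ _ _ (by linear_combination b01) (by linear_combination (-1 : ℂ) * b01)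
      · by_cases i2 : i = j
        · subst i2
          simp only [if_true, if_neg h21, h.e21, h.e22, zero_add, add_zero]
          exact bil' _ _ _ (by linear_combination b11) (by linear_combination (-1 : ℂ) * b11)
        · simp [i1, i2, h21, h.e1 y a i i1 i2, h.e2 y a i i1 i2]
    · simp [j1, j2]

theorem s_blk (h : Ent θ ω p0 p1 p2 M) (y : Sphere2) (x b : B) :
    (Mt.single p0 p0 x : Mt I B) * blk p1 p2 y b = 0 := by
  simp only [blk, mul_add, Mt.single_mul_single_ne h.ne01, Mt.single_mul_single_ne h.ne02,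
    add_zero]

theorem blk_s (h : Ent θ ω p0 p1 p2 M) (y : Sphere2) (x b : B) :
    blk p1 p2 y b * (Mt.single p0 p0 x : Mt I B) = 0 := by
  simp only [blk, add_mul, Mt.single_mul_single_ne (Ne.symm h.ne01),
    Mt.single_mul_single_ne (Ne.symm h.ne02), add_zero]

theorem Ent.scal (h : Ent θ ω p0 p1 p2 M) (y : Sphere2) (b : B) (p q : I) :
    ∃ c : ℂ, (M y b - Mt.single p0 p0 (θ b) - blk p1 p2 y b) p q = algebraMap ℂ B c := by
  have h12 := h.ne12
  have h21 := Ne.symm h.ne12
  have sc : ∀ (u v : ℂ) (x : B) (o : ℂ), ∃ c : ℂ,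
      u • x + v • algebraMap ℂ B o - 0 - u • x = algebraMap ℂ B c := fun u v x o =>
    ⟨v * o, by
      rw [map_mul, ← Algebra.smul_def]
      abel⟩
  simp only [Mt.sub_apply, Mt.single_apply, blk_apply h12]
  by_cases p0' : p = p0
  · subst p0'
    by_cases q0' : q = p
    · subst q0'
      refine ⟨0, ?_⟩
      simp [h.ne01, h.ne02, h.e00]
    · refine ⟨0, ?_⟩
      simp [h.ne01, h.ne02, q0', (h.e0 y b q q0').1]
  by_cases q0' : q = p0
  · subst q0'
    refine ⟨0, ?_⟩
    simp [h.ne01, h.ne02, p0', (h.e0 y b p p0').2]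
  simp only [p0', q0', false_and, if_false]
  by_cases i1 : p = p1
  · subst i1
    by_cases j1 : q = p
    · subst j1
      simp only [if_true, h.e11]
      exact sc _ _ _ _
    · by_cases j2 : q = p2
      · subst j2
        simp only [if_true, if_neg h21, h.e12]
        exact sc _ _ _ _
      · refine ⟨0, ?_⟩
        simp [j1, j2, h.e1 y b q j1 j2]
  · by_cases i2 : p = p2
    · subst i2
      by_cases j1 : q = p1
      · subst j1
        simp only [if_true, if_neg h21, h.e21]
        exact sc _ _ _ _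
      · by_cases j2 : q = p
        · subst j2
          simp only [if_true, if_neg h21, h.e22]
          exact sc _ _ _ _
        · refine ⟨0, ?_⟩
          simp [j1, j2, h21, h.e2 y b q j1 j2]
    · by_cases j1 : q = p1
      · subst j1
        refine ⟨0, ?_⟩
        simp [i1, i2, h.e1 y b p i1 i2]
      · by_cases j2 : q = p2
        · subst j2
          refine ⟨0, ?_⟩
          simp [i1, i2, h.e2 y b p i1 i2]
        · obtain ⟨c, hc⟩ := h.es y b p q p0' i1 i2 q0' j1 j2
          exact ⟨c, by simp [i1, i2, hc]⟩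

/-- The three parts, for a multiplicative family `N` with these entries. -/
theorem three (N : B →⋆ₙₐ[ℂ] C(Sphere2, Mt I B)) (h : Ent θ ω p0 p1 p2 fun y b => N b y) :
    ∃ g : Fin 3 → (B →⋆ₙₐ[ℂ] C(Sphere2, Mt I B)),
    (∀ b, N b = ∑ l, g l b) ∧ (∀ l m, l ≠ m → ∀ a b, g l a * g m b = 0) ∧
    (∀ b y, g 0 b y = Mt.single p0 p0 (θ b)) ∧ (∀ b y, g 1 b y = blk p1 p2 y b) ∧
    ∀ b y p q, ∃ c : ℂ, g 2 b y p q = algebraMap ℂ B c := by
  let g0 : B →⋆ₙₐ[ℂ] C(Sphere2, Mt I B) :=
    { toFun := fun b => ContinuousMap.const _ (Mt.single p0 p0 (θ b))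
      map_smul' := fun c b => by
        ext1 y
        change (Mt.single p0 p0 (θ (c • b)) : Mt I B) = c • Mt.single p0 p0 (θ b)
        rw [map_smul, single_smul]
      map_zero' := by
        ext1 y
        change (Mt.single p0 p0 (θ 0) : Mt I B) = 0
        rw [map_zero, single_zero]
      map_add' := fun a b => by
        ext1 y
        change (Mt.single p0 p0 (θ (a + b)) : Mt I B) =
          Mt.single p0 p0 (θ a) + Mt.single p0 p0 (θ b)
        rw [map_add, single_add]
      map_mul' := fun a b => by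
        ext1 y
        change (Mt.single p0 p0 (θ (a * b)) : Mt I B) =
          Mt.single p0 p0 (θ a) * Mt.single p0 p0 (θ b)
        rw [map_mul, Mt.single_mul_single]
      map_star' := fun a => by
        ext1 y
        change (Mt.single p0 p0 (θ (star a)) : Mt I B) = star (Mt.single p0 p0 (θ a))
        rw [map_star, Mt.star_single] }
  let g1 : B →⋆ₙₐ[ℂ] C(Sphere2, Mt I B) :=
    { toFun := fun b => ⟨fun y => blk p1 p2 y b, continuous_blk p1 p2 b⟩
      map_smul' := fun c b => by
        ext1 y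
        change blk p1 p2 y (c • b) = c • blk p1 p2 y b
        simp only [blk, single_smul, smul_add]
        simp only [smul_smul, mul_comm]
      map_zero' := by
        ext1 y
        change blk p1 p2 y (0 : B) = 0
        simp only [blk, smul_zero, single_zero, add_zero]
      map_add' := fun a b => by
        ext1 y
        change blk p1 p2 y (a + b) = blk p1 p2 y a + blk p1 p2 y b
        simp only [blk, smul_add, single_add]
        abel
      map_mul' := fun a b => by
        ext1 y
        change blk p1 p2 y (a * b) = blk p1 p2 y a * blk p1 p2 y b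
        rw [blk_mul p1 p2 h.ne12]
      map_star' := fun a => by
        ext1 y
        change blk p1 p2 y (star a) = star (blk p1 p2 y a)
        rw [blk_star] }
  have f0N : ∀ a b, g0 a * N b = g0 (a * b) := fun a b => by
    ext1 y
    exact h.m0 y a b
  have N0f : ∀ a b, N a * g0 b = g0 (a * b) := fun a b => by
    ext1 y
    exact h.m0' y a b
  have f1N : ∀ a b, g1 a * N b = g1 (a * b) := fun a b => by
    ext1 y
    exact h.m1 y a b
  have N1f : ∀ a b, N a * g1 b = g1 (a * b) := fun a b => by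
    ext1 y
    exact h.m1' y a b
  have f01 : ∀ a b, g0 a * g1 b = 0 := fun a b => by
    ext1 y
    exact s_blk h y (θ a) b
  have f10 : ∀ a b, g1 a * g0 b = 0 := fun a b => by
    ext1 y
    exact blk_s h y (θ b) a
  let g2 : B →⋆ₙₐ[ℂ] C(Sphere2, Mt I B) :=
    { toFun := fun b => N b - g0 b - g1 b
      map_smul' := fun c b => by
        simp only [map_smul, MonoidHom.id_apply, smul_sub]
      map_zero' := by simp only [map_zero, sub_zero]
      map_add' := fun a b => by
        simp only [map_add]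
        abel
      map_mul' := fun a b => by
        have e0 : g0 a * g0 b = g0 (a * b) := (map_mul g0 a b).symm
        have e1 : g1 a * g1 b = g1 (a * b) := (map_mul g1 a b).symm
        have eN : N a * N b = N (a * b) := (map_mul N a b).symm
        simp only [sub_mul, mul_sub, f0N, N0f, f1N, N1f, f01, f10, e0, e1, eN]
        abel
      map_star' := fun a => by simp only [map_star, star_sub] }
  have g2a : ∀ b, g2 b = N b - g0 b - g1 b := fun _ => rfl
  refine ⟨![g0, g1, g2], ?_, ?_, ?_, ?_, ?_⟩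
  · intro b
    rw [Fin.sum_univ_three]
    change N b = g0 b + g1 b + g2 b
    rw [g2a]
    abel
  · have e0 : ∀ a b, g0 a * g0 b = g0 (a * b) := fun a b => (map_mul g0 a b).symm
    have e1 : ∀ a b, g1 a * g1 b = g1 (a * b) := fun a b => (map_mul g1 a b).symm
    have f02 : ∀ a b, g0 a * g2 b = 0 := fun a b => by
      rw [g2a, mul_sub, mul_sub, f0N, e0, f01, sub_self, sub_zero]
    have f20 : ∀ a b, g2 a * g0 b = 0 := fun a b => by
      rw [g2a, sub_mul, sub_mul, N0f, e0, f10, sub_self, sub_zero]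
    have f12 : ∀ a b, g1 a * g2 b = 0 := fun a b => by
      rw [g2a, mul_sub, mul_sub, f1N, e1, f10, sub_zero, sub_self]
    have f21 : ∀ a b, g2 a * g1 b = 0 := fun a b => by
      rw [g2a, sub_mul, sub_mul, N1f, e1, f01, sub_zero, sub_self]
    intro l m hlm a b
    fin_cases l <;> fin_cases m
    · exact absurd rfl hlm
    · exact f01 a b
    · exact f02 a b
    · exact f10 a b
    · exact absurd rfl hlm
    · exact f12 a b
    · exact f20 a b
    · exact f21 a b
    · exact absurd rfl hlm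
  · intro b y
    rfl
  · intro b y
    rfl
  · intro b y p q
    exact h.scal y b p q

end

theorem t : S_DEC := by
  intro B _ θ ω s c2 hom k κh hk s0
  obtain ⟨h01, -, -, hc0, hc1, hoff, hsc, -⟩ := s.step k
  obtain ⟨h20, h21, h22, h2x⟩ := hom k
  have hPi : ∀ x x' : s.C k, x ≠ x' → (s.e k).symm (s0, x) ≠ (s.e k).symm (s0, x') := by
    intro x x' hx h
    exact hx (Prod.ext_iff.1 ((s.e k).symm.injective h)).2
  let N : B →⋆ₙₐ[ℂ] C(Sphere2, s.A (k + 1)) :=
    { toFun := fun b => κh (Mt.single s0 s0 b)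
      map_smul' := fun c b => by
        rw [single_smul, map_smul]
        rfl
      map_zero' := by rw [single_zero, map_zero]
      map_add' := fun a b => by rw [single_add, map_add]
      map_mul' := fun a b => by rw [← Mt.single_mul_single s0 s0 s0, map_mul]
      map_star' := fun a => by rw [← Mt.star_single, map_star] }
  have hN : ∀ b y x x', N b y ((s.e k).symm (s0, x)) ((s.e k).symm (s0, x')) =
      rotE ω (s.c1 k) (c2 k) (s.K k) y b x x' := by
    intro b y x x'
    change κh (Mt.single s0 s0 b) y _ _ = _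
    rw [hk, Equiv.apply_symm_apply, Equiv.apply_symm_apply, Mt.single_apply, if_pos ⟨rfl, rfl⟩]
  have hN0 : ∀ b y p q, ¬ ((s.e k p).1 = s0 ∧ (s.e k q).1 = s0) → N b y p q = 0 := by
    intro b y p q h
    change κh (Mt.single s0 s0 b) y _ _ = _
    rw [hk, Mt.single_apply, if_neg h, rotE]
    split_ifs <;> simp
  have hcas : ∀ p : s.S (k + 1), (s.e k p).1 = s0 → ∃ x, p = (s.e k).symm (s0, x) := by
    intro p hp
    refine ⟨(s.e k p).2, ?_⟩
    rw [Equiv.eq_symm_apply]
    exact Prod.ext hp rfl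
  have rK : ∀ (b : B) (y : Sphere2) (x x' : s.C k), (x ≠ s.c1 k ∧ x ≠ c2 k) ∨
      (x' ≠ s.c1 k ∧ x' ≠ c2 k) → rotE ω (s.c1 k) (c2 k) (s.K k) y b x x' = s.K k b x x' := by
    intro b y x x' h
    rw [rotE, if_neg]
    rintro ⟨h1, h2⟩
    rcases h with ⟨h3, h4⟩ | ⟨h3, h4⟩
    · exact h1.elim h3 h4
    · exact h2.elim h3 h4
  have h02 : s.c0 k ≠ c2 k := Ne.symm h20
  have hE : Ent θ ω ((s.e k).symm (s0, s.c0 k)) ((s.e k).symm (s0, s.c1 k))
      ((s.e k).symm (s0, c2 k)) fun y b => N b y := by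
    constructor
    · exact hPi _ _ h01
    · exact hPi _ _ h02
    · exact hPi _ _ (Ne.symm h21)
    · intro y b
      rw [hN, rK _ _ _ _ (Or.inl ⟨h01, h02⟩), hc0]
    · intro y b q hq
      by_cases hq0 : (s.e k q).1 = s0
      · obtain ⟨x, rfl⟩ := hcas q hq0
        have hx : x ≠ s.c0 k := fun h => hq (by rw [h])
        rw [hN, hN, rK _ _ _ _ (Or.inl ⟨h01, h02⟩), rK _ _ _ _ (Or.inr ⟨h01, h02⟩)]
        exact ⟨hoff _ _ _ (Ne.symm hx) (Or.inl rfl), hoff _ _ _ hx (Or.inr (Or.inr (Or.inl rfl)))⟩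
      · exact ⟨hN0 _ _ _ _ fun h => hq0 h.2, hN0 _ _ _ _ fun h => hq0 h.1⟩
    · intro y b q hq1 hq2
      by_cases hq0 : (s.e k q).1 = s0
      · obtain ⟨x, rfl⟩ := hcas q hq0
        have hx1 : x ≠ s.c1 k := fun h => hq1 (by rw [h])
        have hx2 : x ≠ c2 k := fun h => hq2 (by rw [h])
        rw [hN, hN, rK _ _ _ _ (Or.inr ⟨hx1, hx2⟩), rK _ _ _ _ (Or.inl ⟨hx1, hx2⟩)]
        exact ⟨hoff _ _ _ (Ne.symm hx1) (Or.inr (Or.inl rfl)),
          hoff _ _ _ hx1 (Or.inr (Or.inr (Or.inr rfl)))⟩
      · exact ⟨hN0 _ _ _ _ fun h => hq0 h.2, hN0 _ _ _ _ fun h => hq0 h.1⟩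
    · intro y b q hq1 hq2
      by_cases hq0 : (s.e k q).1 = s0
      · obtain ⟨x, rfl⟩ := hcas q hq0
        have hx1 : x ≠ s.c1 k := fun h => hq1 (by rw [h])
        have hx2 : x ≠ c2 k := fun h => hq2 (by rw [h])
        rw [hN, hN, rK _ _ _ _ (Or.inr ⟨hx1, hx2⟩), rK _ _ _ _ (Or.inl ⟨hx1, hx2⟩)]
        exact h2x _ _ hx2
      · exact ⟨hN0 _ _ _ _ fun h => hq0 h.2, hN0 _ _ _ _ fun h => hq0 h.1⟩
    · intro y b
      rw [hN]
      simp [rotE, ix]
    · intro y b
      rw [hN]
      simp [rotE, ix, h21, Ne.symm h21]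
    · intro y b
      rw [hN]
      simp [rotE, ix, h21]
    · intro y b
      rw [hN]
      simp [rotE, ix, h21]
    · intro y b q q' q0 q1 q2 q0' q1' q2'
      by_cases hqq : (s.e k q).1 = s0 ∧ (s.e k q').1 = s0
      · obtain ⟨x, rfl⟩ := hcas q hqq.1
        obtain ⟨x', rfl⟩ := hcas q' hqq.2
        have hx0 : x ≠ s.c0 k := fun h => q0 (by rw [h])
        have hx1 : x ≠ s.c1 k := fun h => q1 (by rw [h])
        have hx2 : x ≠ c2 k := fun h => q2 (by rw [h])
        have hx0' : x' ≠ s.c0 k := fun h => q0' (by rw [h])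
        have hx1' : x' ≠ s.c1 k := fun h => q1' (by rw [h])
        rw [hN, rK _ _ _ _ (Or.inl ⟨hx1, hx2⟩)]
        exact hsc _ _ _ hx0 hx1 hx0' hx1'
      · exact ⟨0, by rw [hN0 _ _ _ _ hqq, map_zero]⟩
  obtain ⟨g, g1, g2, g3, g4, g5⟩ := three N hE
  exact ⟨_, _, _, g, hE.ne12, g1, g2, g3, g4, g5⟩

end

end Pool.Agent.Helper16.CF
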